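import Mathlib
import Pool.Agent.Helper68.RRC.Core

/-!
# Right random context nonterminals of one-sided random context grammars can be eliminated
-/

set_option autoImplicit false

namespace Pool.Agent.Results.MP_fc8a61_lc.Full

/-- A random context rule `(A → x, U, W)`; the letters of `x` are terminals (in `T`) or
nonterminals (in `N`), and `x` may be empty. -/
structure Rule (T N : Type) where
  lhs : N
  rhs : List (Symbol T N)
  permitting : Finset N
  forbidding : Finset N

/-- A one-sided random context grammar `(N, T, P_L, P_R, S)`. -/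
structure Grammar (T N : Type) where
  PL : Finset (Rule T N)
  PR : Finset (Rule T N)
  start : N

/-- The set of the nonterminals occurring in the word `u`. -/
def occ {T N : Type} (u : List (Symbol T N)) : Set N := {B | Symbol.nonterminal B ∈ u}

/-- The rule `r` may be used if the context `u` contains its permitting context and is disjoint
from its forbidding context. -/
def Allows {T N : Type} (u : List (Symbol T N)) (r : Rule T N) : Prop :=
  (r.permitting : Set N) ⊆ occ u ∧ (r.forbidding : Set N) ∩ occ u = ∅

/-- `u A v ⇒ u x v` by a rule of `P_L` which the left context `u` allows, or by a rule of `P_R`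
which the right context `v` allows. -/
def Derives {T N : Type} (G : Grammar T N) (α β : List (Symbol T N)) : Prop :=
  ∃ (u v : List (Symbol T N)) (r : Rule T N),
    α = u ++ [Symbol.nonterminal r.lhs] ++ v ∧ β = u ++ r.rhs ++ v ∧
      ((r ∈ G.PL ∧ Allows u r) ∨ (r ∈ G.PR ∧ Allows v r))

/-- The generated language. -/
def lang {T N : Type} (G : Grammar T N) : Set (List T) :=
  {w | Relation.ReflTransGen (Derives G) [Symbol.nonterminal G.start]
    (w.map Symbol.terminal)}

/-- The set of the right random context nonterminals: the left-hand sides of rules in `P_R`. -/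
def rightNonterminals {T N : Type} (G : Grammar T N) : Set N := {A | ∃ r ∈ G.PR, r.lhs = A}

/-- Their number. -/
noncomputable def nrrcn {T N : Type} (G : Grammar T N) : ℕ := (rightNonterminals G).ncard

private def toRule {T N : Type} (p : N × List (Symbol T N) × Finset N × Finset N) : Rule T N :=
  ⟨p.1, p.2.1, p.2.2.1, p.2.2.2⟩

private def ofRule {T N : Type} (r : Rule T N) : N × List (Symbol T N) × Finset N × Finset N :=
  (r.lhs, r.rhs, r.permitting, r.forbidding)

private theorem allows_iff {T N : Type} (u : List (Symbol T N)) (r : Rule T N) :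
    Allows u r ↔ (∀ B ∈ r.permitting, Symbol.nonterminal B ∈ u) ∧
      (∀ B ∈ r.forbidding, Symbol.nonterminal B ∉ u) := by
  unfold Allows occ
  constructor
  · rintro ⟨h1, h2⟩
    refine ⟨fun B hB => h1 hB, fun B hB hu => ?_⟩
    have : B ∈ (r.forbidding : Set N) ∩ {B | Symbol.nonterminal B ∈ u} := ⟨hB, hu⟩
    rw [h2] at this
    exact this
  · rintro ⟨h1, h2⟩
    refine ⟨fun B hB => h1 B hB, ?_⟩
    rw [Set.eq_empty_iff_forall_notMem]
    rintro B ⟨hB, hu⟩
    exact h2 B hB hu

private theorem derives_iff {T N : Type} [DecidableEq (N × List (Symbol T N) × Finset N × Finset N)]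
    (G : Grammar T N) (α β : List (Symbol T N)) :
    Derives G α β ↔ ∃ (u v : List (Symbol T N)) (A : N) (x : List (Symbol T N)) (U W : Finset N),
      α = u ++ [Symbol.nonterminal A] ++ v ∧ β = u ++ x ++ v ∧
        (((A, x, U, W) ∈ G.PL.image ofRule ∧ (∀ B ∈ U, Symbol.nonterminal B ∈ u) ∧
            (∀ B ∈ W, Symbol.nonterminal B ∉ u)) ∨
          ((A, x, U, W) ∈ G.PR.image ofRule ∧ (∀ B ∈ U, Symbol.nonterminal B ∈ v) ∧
            (∀ B ∈ W, Symbol.nonterminal B ∉ v))) := by
  constructor
  · rintro ⟨u, v, r, h1, h2, h3⟩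
    refine ⟨u, v, r.lhs, r.rhs, r.permitting, r.forbidding, h1, h2, ?_⟩
    rcases h3 with ⟨hr, ha⟩ | ⟨hr, ha⟩
    · exact Or.inl ⟨Finset.mem_image.mpr ⟨r, hr, rfl⟩, (allows_iff u r).mp ha⟩
    · exact Or.inr ⟨Finset.mem_image.mpr ⟨r, hr, rfl⟩, (allows_iff v r).mp ha⟩
  · rintro ⟨u, v, A, x, U, W, h1, h2, h3⟩
    refine ⟨u, v, ⟨A, x, U, W⟩, h1, h2, ?_⟩
    rcases h3 with ⟨hr, ha⟩ | ⟨hr, ha⟩
    · obtain ⟨r, hr, he⟩ := Finset.mem_image.mp hr
      have : r = ⟨A, x, U, W⟩ := by
        cases r
        simp only [ofRule, Prod.mk.injEq] at he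
        obtain ⟨rfl, rfl, rfl, rfl⟩ := he
        rfl
      rw [this] at hr
      exact Or.inl ⟨hr, (allows_iff u _).mpr ha⟩
    · obtain ⟨r, hr, he⟩ := Finset.mem_image.mp hr
      have : r = ⟨A, x, U, W⟩ := by
        cases r
        simp only [ofRule, Prod.mk.injEq] at he
        obtain ⟨rfl, rfl, rfl, rfl⟩ := he
        rfl
      rw [this] at hr
      exact Or.inr ⟨hr, (allows_iff v _).mpr ha⟩

/-- Every one-sided random context grammar has an equivalent one without right random context
nonterminals, that is, an equivalent left random context grammar. -/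
theorem result (T N : Type) [Finite T] [Finite N] (G : Grammar T N) :
    ∃ (N' : Type) (_ : Finite N') (H : Grammar T N'),
      H.PR = ∅ ∧ nrrcn H = 0 ∧ lang H = lang G := by
  classical
  obtain ⟨N', hN', S', PL', PR', hPR', h⟩ := Pool.Agent.Helper68.RRC.exists_left T N
    inferInstance inferInstance G.start (G.PL.image ofRule) (G.PR.image ofRule)
  refine ⟨N', hN', ⟨PL'.image toRule, ∅, S'⟩, rfl, ?_, ?_⟩
  · have : rightNonterminals (⟨PL'.image toRule, ∅, S'⟩ : Grammar T N') = ∅ := by
      rw [Set.eq_empty_iff_forall_notMem]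
      rintro A ⟨r, hr, -⟩
      exact absurd hr (Finset.notMem_empty r)
    rw [nrrcn, this, Set.ncard_empty]
  · ext w
    have himg : (PL'.image toRule).image ofRule = PL' := by
      rw [Finset.image_image]
      have : (ofRule ∘ toRule : N' × List (Symbol T N') × Finset N' × Finset N' → _) = id := by
        funext p
        rfl
      rw [this, Finset.image_id]
    have e1 : Derives G = fun (α β : List (Symbol T N)) => ∃ (u v : List (Symbol T N)) (A : N)
        (x : List (Symbol T N)) (U W : Finset N),
        α = u ++ [Symbol.nonterminal A] ++ v ∧ β = u ++ x ++ v ∧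
        (((A, x, U, W) ∈ G.PL.image ofRule ∧ (∀ B ∈ U, Symbol.nonterminal B ∈ u) ∧
            (∀ B ∈ W, Symbol.nonterminal B ∉ u)) ∨
          ((A, x, U, W) ∈ G.PR.image ofRule ∧ (∀ B ∈ U, Symbol.nonterminal B ∈ v) ∧
            (∀ B ∈ W, Symbol.nonterminal B ∉ v))) := by
      funext α β
      exact propext (derives_iff G α β)
    have e2 : Derives (⟨PL'.image toRule, ∅, S'⟩ : Grammar T N') =
        fun (α β : List (Symbol T N')) => ∃ (u v : List (Symbol T N')) (A : N')
        (x : List (Symbol T N')) (U W : Finset N'),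
        α = u ++ [Symbol.nonterminal A] ++ v ∧ β = u ++ x ++ v ∧
        (((A, x, U, W) ∈ PL' ∧ (∀ B ∈ U, Symbol.nonterminal B ∈ u) ∧
            (∀ B ∈ W, Symbol.nonterminal B ∉ u)) ∨
          ((A, x, U, W) ∈ PR' ∧ (∀ B ∈ U, Symbol.nonterminal B ∈ v) ∧
            (∀ B ∈ W, Symbol.nonterminal B ∉ v))) := by
      funext α β
      refine propext ((derives_iff _ α β).trans ?_)
      rw [himg, hPR', Finset.image_empty]
    change Relation.ReflTransGen (Derives (⟨PL'.image toRule, ∅, S'⟩ : Grammar T N'))
      [Symbol.nonterminal S'] (w.map Symbol.terminal) ↔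
      Relation.ReflTransGen (Derives G) [Symbol.nonterminal G.start] (w.map Symbol.terminal)
    rw [e1, e2]
    exact (h w).symm

end Pool.Agent.Results.MP_fc8a61_lc.Full
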